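import Pool.Agent.PFC.StmtsB6

/-! Row LSE of squad PFC: the number of simple modules of the corner `j (F G) j` is at most the number
of the modular characters under `e`. -/

open scoped BigOperators

noncomputable section

namespace Pool.Agent.PFC.H76

open Pool.Agent.Helper51_AWC Pool.Agent.Helper79_WRA Pool.Agent.PP
open Pool.Agent.PFC

section abs

variable {F R A : Type} [Field F] [Ring R] [Algebra F R] [Ring A] [Algebra F A]

/-- a two-sided ideal of nilpotent elements is killed by an irreducible representation -/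
theorem nil_ideal {m : ℕ} (hm : 0 < m) (ρ : A →ₐ[F] Matrix (Fin m) (Fin m) F)
    (hρ : Function.Surjective ρ) (N : A → Prop) (hN : ∀ a y z, N a → N (y * a * z))
    (hnil : ∀ a, N a → IsNilpotent a) (a : A) (ha : N a) : ρ a = 0 := by
  by_contra h0
  obtain ⟨p, q, hpq⟩ : ∃ p q, ρ a p q ≠ 0 := by
    by_contra hc
    push Not at hc
    exact h0 (Matrix.ext fun p q => hc p q)
  obtain ⟨y, hy⟩ := hρ (Matrix.single ⟨0, hm⟩ p 1)
  obtain ⟨z, hz⟩ := hρ (Matrix.single q ⟨0, hm⟩ 1)
  have h1 : ρ (y * a * z) = Matrix.single ⟨0, hm⟩ ⟨0, hm⟩ (ρ a p q) := by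
    rw [map_mul, map_mul, hy, hz, Matrix.single_mul_mul_single, one_mul, mul_one]
  obtain ⟨k, hk⟩ := hnil _ (hN a y z ha)
  have h2 : ∀ k : ℕ, (Matrix.single ⟨0, hm⟩ ⟨0, hm⟩ (ρ a p q) : Matrix (Fin m) (Fin m) F) ^ (k + 1) =
      Matrix.single ⟨0, hm⟩ ⟨0, hm⟩ (ρ a p q ^ (k + 1)) := by
    intro k
    induction k with
    | zero => rw [zero_add, pow_one, pow_one]
    | succ k ih => rw [pow_succ, ih, Matrix.single_mul_single_same, ← pow_succ]
  have h3 : ρ ((y * a * z) ^ (k + 1)) = 0 := by
    rw [pow_succ, hk, zero_mul, map_zero]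
  rw [map_pow, h1, h2] at h3
  have h4 := congrFun (congrFun h3 ⟨0, hm⟩) ⟨0, hm⟩
  rw [Matrix.single_apply_same, Matrix.zero_apply] at h4
  exact pow_ne_zero _ hpq h4

/-- the irreducible representations of a corner -/
theorem corner_abs {n : ℕ} (d : Fin n → ℕ)
    (π : R →ₐ[F] Π i, Matrix (Fin (d i)) (Fin (d i)) F) (hπ : Function.Surjective π)
    (hnil : ∀ a, π a = 0 → IsNilpotent a) (θ : A →ₗ[F] R)
    (hθm : ∀ a b, θ (a * b) = θ a * θ b) (hθi : Function.Injective θ)
    (hθr : ∀ x, ∃ a, θ a = θ 1 * x * θ 1) {m : ℕ} (hm : 0 < m)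
    (ρ : A →ₐ[F] Matrix (Fin m) (Fin m) F) (hρ : Function.Surjective ρ) :
    ∃ i, (∀ a, ρ a = 0 ↔ π (θ a) i = 0) ∧ π (θ 1) i ≠ 0 := by
  -- the kernel
  have hker : ∀ a, π (θ a) = 0 → ρ a = 0 := by
    refine nil_ideal hm ρ hρ (fun a => π (θ a) = 0) ?_ ?_
    · intro a y z ha
      rw [hθm, hθm, map_mul, map_mul, ha, mul_zero, zero_mul]
    · intro a ha
      obtain ⟨k, hk⟩ := hnil _ ha
      refine ⟨k + 1, hθi ?_⟩
      have h1 : ∀ k : ℕ, θ (a ^ (k + 1)) = θ a ^ (k + 1) := by
        intro k
        induction k with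
        | zero => rw [zero_add, pow_one, pow_one]
        | succ k ih => rw [pow_succ, hθm, ih, ← pow_succ]
      rw [h1, pow_succ, hk, zero_mul, map_zero]
  have h11 : θ 1 * θ 1 = θ 1 := by rw [← hθm, one_mul]
  have hPP : ∀ i, π (θ 1) i * π (θ 1) i = π (θ 1) i := by
    intro i
    have h1 := congrArg π h11
    rw [map_mul] at h1
    exact congrFun h1 i
  choose x hx using fun i => hπ (Pi.single i 1)
  choose f hf using fun i => hθr (x i)
  have hfi : ∀ i, π (θ (f i)) i = π (θ 1) i := by
    intro i
    rw [hf, map_mul, map_mul, hx, Pi.mul_apply, Pi.mul_apply, Pi.single_eq_same, mul_one, hPP]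
  have hfk : ∀ i k, k ≠ i → π (θ (f i)) k = 0 := by
    intro i k hk
    rw [hf, map_mul, map_mul, hx, Pi.mul_apply, Pi.mul_apply, Pi.single_eq_of_ne hk, mul_zero,
      zero_mul]
  have hsum : ρ (∑ i, f i) = 1 := by
    have h1 : ρ (∑ i, f i - 1) = 0 := by
      apply hker
      funext k
      rw [map_sub, map_sub, Pi.sub_apply, map_sum, map_sum, Finset.sum_apply,
        Finset.sum_eq_single k, hfi, sub_self]
      · rfl
      · intro i _ hi
        exact hfk i k (Ne.symm hi)
      · intro h
        exact absurd (Finset.mem_univ _) h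
    rw [map_sub, map_one, sub_eq_zero] at h1
    exact h1
  obtain ⟨i, hi⟩ : ∃ i, ρ (f i) ≠ 0 := by
    by_contra hc
    push Not at hc
    rw [map_sum, Finset.sum_eq_zero fun i _ => hc i] at hsum
    have h1 := congrFun (congrFun hsum ⟨0, hm⟩) ⟨0, hm⟩
    rw [Matrix.one_apply_eq, Matrix.zero_apply] at h1
    exact zero_ne_one h1
  have hl : ∀ a, π (θ 1) i * π (θ a) i = π (θ a) i := by
    intro a
    rw [← Pi.mul_apply, ← map_mul, ← hθm, one_mul]
  have hr : ∀ a, π (θ a) i * π (θ 1) i = π (θ a) i := by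
    intro a
    rw [← Pi.mul_apply, ← map_mul, ← hθm, mul_one]
  have h1 : ρ (f i) = 1 := by
    obtain ⟨c, hc⟩ := PP.H20.comm_scalar (ρ (f i)) (by
      intro N
      obtain ⟨a, rfl⟩ := hρ N
      rw [← map_mul, ← map_mul, ← sub_eq_zero, ← map_sub]
      apply hker
      funext k
      rw [map_sub, map_sub, hθm, hθm, map_mul, map_mul, Pi.sub_apply, Pi.mul_apply, Pi.mul_apply]
      by_cases hk : k = i
      · subst hk
        rw [hfi, hl, hr, sub_self]
        rfl
      · rw [hfk i k hk, mul_zero, zero_mul, sub_self]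
        rfl)
    have h2 : ρ (f i) * ρ (f i) = ρ (f i) := by
      rw [← map_mul, ← sub_eq_zero, ← map_sub]
      apply hker
      funext k
      rw [map_sub, map_sub, hθm, map_mul, Pi.sub_apply, Pi.mul_apply]
      by_cases hk : k = i
      · subst hk
        rw [hfi, hPP, sub_self]
        rfl
      · rw [hfk i k hk, mul_zero, sub_self]
        rfl
    rw [hc, smul_mul_smul_comm, one_mul] at h2
    have h3 : c * c = c := by
      have h4 := congrFun (congrFun h2 ⟨0, hm⟩) ⟨0, hm⟩
      rw [Matrix.smul_apply, Matrix.smul_apply, Matrix.one_apply_eq, smul_eq_mul, smul_eq_mul,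
        mul_one, mul_one] at h4
      exact h4
    have h4 : c ≠ 0 := by
      rintro rfl
      rw [zero_smul] at hc
      exact hi hc
    rw [hc, mul_left_cancel₀ h4 (h3.trans (mul_one c).symm), one_smul]
  refine ⟨i, fun a => ⟨fun ha => ?_, fun ha => ?_⟩, fun h0 => ?_⟩
  · by_contra hX
    obtain ⟨p, q, hpq⟩ : ∃ p q, π (θ a) i p q ≠ 0 := by
      by_contra hc
      push Not at hc
      exact hX (Matrix.ext fun p q => hc p q)
    choose Y hY using fun c : Fin (d i) => hπ (Pi.single i (Matrix.single c p 1))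
    choose Z hZ using fun c : Fin (d i) => hπ (Pi.single i (Matrix.single q c 1))
    choose y hy using fun c => hθr (Y c)
    choose z hz using fun c => hθr (Z c)
    have h2 : ρ (∑ c, y c * a * z c - π (θ a) i p q • f i) = 0 := by
      apply hker
      funext k
      rw [map_sub, map_sub, map_sum, map_sum, map_smul, map_smul, Pi.sub_apply, Finset.sum_apply,
        Pi.smul_apply]
      by_cases hk : k = i
      · subst hk
        have h3 : ∀ c, π (θ (y c * a * z c)) k =
            π (θ 1) k * Matrix.single c c (π (θ a) k p q) * π (θ 1) k := by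
          intro c
          rw [hθm, hθm, hy, hz, map_mul, map_mul, map_mul, map_mul, map_mul, map_mul, hY, hZ]
          simp only [Pi.mul_apply, Pi.single_eq_same]
          calc π (θ 1) k * Matrix.single c p 1 * π (θ 1) k * π (θ a) k *
                (π (θ 1) k * Matrix.single q c 1 * π (θ 1) k)
              = π (θ 1) k * Matrix.single c p 1 * (π (θ 1) k * π (θ a) k) *
                (π (θ 1) k * Matrix.single q c 1 * π (θ 1) k) := by
                simp only [mul_assoc]
            _ = π (θ 1) k * (Matrix.single c p 1 * (π (θ a) k * π (θ 1) k) *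
                Matrix.single q c 1) * π (θ 1) k := by
                rw [hl]
                simp only [mul_assoc]
            _ = π (θ 1) k * Matrix.single c c (π (θ a) k p q) * π (θ 1) k := by
                rw [hr, Matrix.single_mul_mul_single, one_mul, mul_one]
        rw [Finset.sum_congr rfl fun c _ => h3 c, ← Finset.sum_mul, ← Finset.mul_sum, hfi]
        have h4 : ∑ c, Matrix.single c c (π (θ a) k p q) =
            π (θ a) k p q • (1 : Matrix (Fin (d k)) (Fin (d k)) F) := by
          ext u v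
          rw [Matrix.sum_apply, Matrix.smul_apply, Matrix.one_apply]
          by_cases huv : u = v
          · subst huv
            rw [Finset.sum_eq_single u, Matrix.single_apply_same, if_pos rfl, smul_eq_mul, mul_one]
            · intro c _ hc
              rw [Matrix.single_apply_of_ne]
              rintro ⟨h, -⟩
              exact hc h
            · intro h
              exact absurd (Finset.mem_univ _) h
          · rw [if_neg huv, smul_zero]
            refine Finset.sum_eq_zero fun c _ => ?_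
            rw [Matrix.single_apply_of_ne]
            rintro ⟨h5, h6⟩
            exact huv (h5.symm.trans h6)
        rw [h4, mul_smul_comm, mul_one, smul_mul_assoc, hPP, sub_self]
        rfl
      · rw [hfk i k hk, smul_zero, sub_zero]
        refine Finset.sum_eq_zero fun c _ => ?_
        rw [hθm, hθm, hy, map_mul, map_mul, map_mul, map_mul, hY]
        simp only [Pi.mul_apply]
        rw [Pi.single_eq_of_ne hk]
        simp only [mul_zero, zero_mul]
    rw [map_sub, map_sum, Finset.sum_eq_zero, map_smul, h1, zero_sub, neg_eq_zero] at h2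
    · have h3 := congrFun (congrFun h2 ⟨0, hm⟩) ⟨0, hm⟩
      rw [Matrix.smul_apply, Matrix.one_apply_eq, smul_eq_mul, mul_one, Matrix.zero_apply] at h3
      exact hpq h3
    · intro c _
      rw [map_mul, map_mul, ha, mul_zero, zero_mul]
  · have h2 : ρ (a * f i) = 0 := by
      apply hker
      funext k
      rw [hθm, map_mul, Pi.mul_apply]
      by_cases hk : k = i
      · subst hk
        rw [ha, zero_mul]
        rfl
      · rw [hfk i k hk, mul_zero]
        rfl
    rw [map_mul, h1, mul_one] at h2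
    exact h2
  · apply hi
    apply hker
    funext k
    by_cases hk : k = i
    · subst hk
      rw [hfi, h0]
      rfl
    · rw [hfk i k hk]
      rfl

end abs

/-- the corner in the group algebra -/
def thc {F G : Type} [Field F] [Group G] [Finite G] {j : G → F} (hj : mulF j j = j) :
    Crn hj →ₗ[F] MonoidAlgebra F G where
  toFun a := PP.H20.toMA (cv a)
  map_add' a b := by rw [cv_add, PP.H20.toMA_add]
  map_smul' c a := by
    rw [cv_smul, PP.H20.toMA_smul]
    rfl

theorem thc_apply {F G : Type} [Field F] [Group G] [Finite G] {j : G → F} (hj : mulF j j = j)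
    (a : Crn hj) : thc hj a = PP.H20.toMA (cv a) := rfl

theorem lse : LseStmt := by
  intro ℓ F _ hF G _ _ e j he hej hj
  have := hF.closed
  obtain ⟨n, d, π, σ, hπ, hnil, hirr, hev, -, hinj⟩ := PP.H20.ibr_struct (F := F) (H := G)
  have key : ∀ K ∈ kers F (Crn hj), ∃ i, K = {a | π (thc hj a) i = 0} ∧ π (thc hj 1) i ≠ 0 := by
    rintro K ⟨m, ρ, hm, hρ, rfl⟩
    obtain ⟨i, h1, h2⟩ := corner_abs d π hπ hnil (thc hj)
      (fun a b => by rw [thc_apply, cv_mul, PP.H20.toMA_mulF]; rfl)
      (fun a b hab => cv_inj hj (PP.H20.toMA_injective hab))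
      (fun x => by
        obtain ⟨a, rfl⟩ := PP.H20.toMA_surjective x
        refine ⟨mkj hj a, ?_⟩
        rw [thc_apply, cv_mkj, PP.H20.toMA_mulF, PP.H20.toMA_mulF, ← mul_assoc]
        rfl) hm ρ hρ
    exact ⟨i, Set.ext fun a => h1 a, h2⟩
  unfold ls
  unfold Pool.Agent.PP.T3.ln
  rcases Set.eq_empty_or_nonempty (kers F (Crn hj)) with h0 | ⟨K0, hK0⟩
  · rw [h0, Set.ncard_empty]
    exact Nat.zero_le _
  have hne : Nonempty (Fin n) := ⟨(key K0 hK0).choose⟩
  choose! I hI1 hI2 using key
  refine Set.ncard_le_ncard_of_injOn (fun K => tr (σ (I K))) ?_ ?_ ?_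
  · intro K hK
    refine ⟨⟨_, σ (I K), hirr _, rfl⟩, ?_⟩
    obtain ⟨w, h1, h2, h3⟩ := PP.H20.eig F G _ (σ (I K)) (hirr _) e he.1
    rcases h3 he with h | h
    · exfalso
      apply hI2 K hK
      rw [thc_apply, cv_one, ← hev, ← hej, PP.H20.ev_mulF, h1, h, map_zero, zero_mul]
    · rw [h2, h, one_smul]
  · intro K hK K' hK' h
    have h1 : I K = I K' := hinj h
    rw [hI1 K hK, hI1 K' hK', h1]
  · exact (PP.H20.ibf ℓ F hF G).1.subset fun f hf => hf.1

end Pool.Agent.PFC.H76
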