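import Pool.Agent.PFC.StmtsB6

/-! Row LCP of squad PFC: from the local algebra `Pj` to the local data `Lcq`. -/

open scoped BigOperators

noncomputable section

namespace Pool.Agent.PFC.H76

open Pool.Agent.Helper51_AWC Pool.Agent.Helper79_WRA Pool.Agent.PP Pool.Agent.PP.KF
open Pool.Agent.PP.K9 Pool.Agent.PP.K9.H97 Pool.Agent.PP.H75 Pool.Agent.PP.T3 Pool.Agent.PP.T2
open Pool.Agent.PP.T8 (Fr rs pw)
open Pool.Agent.PFC

attribute [local instance] Ideal.Quotient.field

section maps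

variable {F H : Type} [Field F] [Group H] [Finite H] {j : H → F} (hj : mulF j j = j) {n : ℕ}
  {π : (H → F) →ₗ[F] Matrix (Fin n) (Fin n) F}

/-- the homomorphism `π` on the corner -/
def pc (hπ : Pj j n π) : Crn hj →ₐ[F] Matrix (Fin n) (Fin n) F :=
  AlgHom.ofLinearMap
    { toFun := fun a : Crn hj => π (cv a)
      map_add' := fun a b => by rw [cv_add, map_add]
      map_smul' := fun r a => by rw [cv_smul, map_smul]; rfl }
    (by
      change π (cv (1 : Crn hj)) = 1
      rw [cv_one]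
      exact hπ.one)
    (fun a b => by
      change π (cv (a * b)) = π (cv a) * π (cv b)
      rw [cv_mul]
      exact hπ.mul _ _ (cv_l hj a) (cv_r hj a) (cv_l hj b) (cv_r hj b))

theorem pc_apply (hπ : Pj j n π) (a : Crn hj) : pc hj hπ a = π (cv a) := rfl

theorem cv_pow (b : Crn hj) (N : ℕ) : cv (b ^ (N + 1)) = (mulF (cv b))^[N] (cv b) := by
  induction N with
  | zero => rw [zero_add, pow_one]; rfl
  | succ N ih =>
    rw [pow_succ' b (N + 1), cv_mul, ih, Function.iterate_succ_apply']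

end maps

theorem lcp (hcbr : CbrStmt) : LcpStmt := by
  intro ℓ _ F _ _ G W _ _ _ _ ι hι hpW j hj hv Q n π hπ
  obtain ⟨hc, β, hβs, -, hβk⟩ := hcbr ℓ F G W ι hι hpW j hj hv Q
  refine ⟨(pc hc hπ).comp β, hπ.pos, ?_, ?_, ?_, hπ.cop⟩
  · intro B
    obtain ⟨a, h1, h2, h3⟩ := hπ.sur B
    obtain ⟨a', ha'⟩ := hβs (mkc hc a ⟨h1, h2⟩)
    refine ⟨a', ?_⟩
    rw [AlgHom.comp_apply, ha', pc_apply, cv_mkc, h3]
  · intro a ha
    rw [AlgHom.comp_apply, (hβk a).2 ha, map_zero]
  · intro a ha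
    rw [AlgHom.comp_apply, pc_apply] at ha
    obtain ⟨N, hN⟩ := hπ.nil (cv (β a)) (cv_l hc _) (cv_r hc _) ha
    refine ⟨N + 1, ?_⟩
    have h1 : β (a ^ (N + 1)) = 0 := by
      apply cv_inj hc
      rw [map_pow, cv_pow hc, hN]
      rfl
    have h2 := (hβk _).1 h1
    exact h2

end Pool.Agent.PFC.H76
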