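import Pool.Agent.PFC.StmtsB5c

/-! Row ZCN of squad PFC: the centre of a full corner. -/

open scoped BigOperators TensorProduct

noncomputable section

namespace Pool.Agent.PFC.B5c.H76

open Pool.Agent.PFC Pool.Agent.PFC.B5c

section

variable {F X Y : Type} [Field F] [Ring X] [Algebra F X] [Ring Y] [Algebra F Y] {j : X}
  {κ : Y →ₗ[F] X}

/-- a finite sum -/
theorem exists_sum (h : (1 : X) ∈ Submodule.span F {x | ∃ a b : X, x = a * j * b}) :
    ∃ (n : ℕ) (a b : Fin n → X), ∑ k, a k * j * b k = 1 := by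
  obtain ⟨n, f, g, hg⟩ := Submodule.mem_span_set'.1 h
  choose a b hab using fun i => (g i).2
  refine ⟨n, fun i => f i • a i, b, ?_⟩
  rw [← hg]
  refine Finset.sum_congr rfl fun i _ => ?_
  rw [hab, smul_mul_assoc, smul_mul_assoc]

theorem zcn_aux (hc : Cnr j κ) (h : (1 : X) ∈ Submodule.span F {x | ∃ a b : X, x = a * j * b}) :
    Nonempty (Subalgebra.center F X ≃ₗ[F] Subalgebra.center F Y) := by
  have hjj : j * j = j := by rw [← hc.one, ← hc.mul, one_mul]
  have hl : ∀ y, j * κ y = κ y := fun y => by rw [← hc.one, ← hc.mul, one_mul]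
  have hr : ∀ y, κ y * j = κ y := fun y => by rw [← hc.one, ← hc.mul, mul_one]
  obtain ⟨n, a, b, hab⟩ := exists_sum h
  have hcen : ∀ z : Subalgebra.center F X, ∀ x, (z : X) * x = x * z := fun z x =>
    (Subalgebra.mem_center_iff.1 z.2 x).symm
  have hex : ∀ z : Subalgebra.center F X, ∃ y : Subalgebra.center F Y, κ y = z * j := by
    intro z
    obtain ⟨y, hy⟩ := hc.ran (z * j) (by rw [← mul_assoc, ← hcen, mul_assoc, hjj])
      (by rw [mul_assoc, hjj])
    refine ⟨⟨y, ?_⟩, hy⟩
    rw [Subalgebra.mem_center_iff]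
    intro w
    apply hc.inj
    rw [hc.mul, hc.mul, hy, ← mul_assoc, ← hcen, mul_assoc, hr, mul_assoc, hl]
  choose φ hφ using hex
  obtain ⟨Φ, hΦ⟩ : ∃ Φ : Subalgebra.center F X →ₗ[F] Subalgebra.center F Y, ∀ z, Φ z = φ z :=
    ⟨{ toFun := φ
       map_add' := fun z w => by
        apply Subtype.ext
        apply hc.inj
        rw [hφ, Subalgebra.coe_add, Subalgebra.coe_add, map_add, hφ, hφ, add_mul]
       map_smul' := fun r z => by
        apply Subtype.ext
        apply hc.inj
        rw [hφ, Subalgebra.coe_smul, RingHom.id_apply, Subalgebra.coe_smul, map_smul, hφ,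
          smul_mul_assoc] }, fun _ => rfl⟩
  refine ⟨LinearEquiv.ofBijective Φ ⟨?_, ?_⟩⟩
  · rw [← LinearMap.ker_eq_bot, LinearMap.ker_eq_bot']
    intro z hz
    have h1 : (z : X) * j = 0 := by
      rw [← hφ, ← hΦ, hz]
      exact map_zero κ
    apply Subtype.ext
    change (z : X) = 0
    rw [← mul_one (z : X), ← hab, Finset.mul_sum]
    refine Finset.sum_eq_zero fun k _ => ?_
    rw [← mul_assoc, ← mul_assoc, hcen, mul_assoc (a k), h1, mul_zero, zero_mul]
  · intro y
    obtain ⟨c, hcdef⟩ : ∃ c : X, c = κ y := ⟨_, rfl⟩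
    have hjc : j * c = c := by rw [hcdef, hl]
    have hcj : c * j = c := by rw [hcdef, hr]
    have hcom : ∀ x, j * x * j * c = c * (j * x * j) := by
      intro x
      obtain ⟨w, hw⟩ := hc.ran (j * x * j) (by rw [← mul_assoc, ← mul_assoc, hjj])
        (by rw [mul_assoc, hjj])
      rw [← hw, hcdef, ← hc.mul, ← hc.mul, Subalgebra.mem_center_iff.1 y.2 w]
    obtain ⟨z, hz⟩ : ∃ z : X, z = ∑ k, a k * c * b k := ⟨_, rfl⟩
    have hzc : ∀ x, x * z = z * x := by
      intro x
      have h1 : x * z = (∑ l, a l * j * b l) * (x * z) := by rw [hab, one_mul]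
      have h2 : z * x = z * x * ∑ k, a k * j * b k := by rw [hab, mul_one]
      rw [h1, h2, hz, Finset.sum_mul, Finset.sum_mul, Finset.sum_mul]
      refine Finset.sum_congr rfl fun l _ => ?_
      rw [Finset.mul_sum, Finset.mul_sum, Finset.mul_sum]
      refine Finset.sum_congr rfl fun k _ => ?_
      calc a l * j * b l * (x * (a k * c * b k))
          = a l * (j * (b l * x * a k) * (j * c)) * b k := by rw [hjc]; simp only [mul_assoc]
        _ = a l * (j * (b l * x * a k) * j * c) * b k := by simp only [mul_assoc]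
        _ = a l * (c * (j * (b l * x * a k) * j)) * b k := by rw [hcom]
        _ = a l * (c * j * (b l * x * a k) * j) * b k := by simp only [mul_assoc]
        _ = a l * (c * (b l * x * a k) * j) * b k := by rw [hcj]
        _ = a l * c * b l * x * (a k * j * b k) := by simp only [mul_assoc]
    have hzj : z * j = c := by
      have h1 : c = (∑ l, a l * j * b l) * c := by rw [hab, one_mul]
      rw [h1, hz, Finset.sum_mul, Finset.sum_mul]
      refine Finset.sum_congr rfl fun k _ => ?_
      calc a k * c * b k * j = a k * (c * j * b k) * j := by rw [hcj]; simp only [mul_assoc]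
        _ = a k * (c * (j * b k * j)) := by simp only [mul_assoc]
        _ = a k * (j * b k * j * c) := by rw [hcom]
        _ = a k * j * b k * (j * c) := by simp only [mul_assoc]
        _ = a k * j * b k * c := by rw [hjc]
    refine ⟨⟨z, Subalgebra.mem_center_iff.2 hzc⟩, ?_⟩
    rw [hΦ]
    apply Subtype.ext
    apply hc.inj
    rw [hφ, ← hcdef, ← hzj]

end

theorem zcn : ZcnStmt := by
  intro F X Y _ _ _ _ _ j κ hc h
  obtain ⟨e⟩ := zcn_aux hc h
  exact e.finrank_eq.symm

end Pool.Agent.PFC.B5c.H76
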