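import Pool.Agent.PFC.StmtsB2

/-! Row CTR of squad PFC (block B2): the numbers of intertwiners into a Higman projective
representation. -/

noncomputable section

namespace Pool.Agent.PFC.B2.H76

open Pool.Agent.PFC.B1 Pool.Agent.PFC.B2

theorem ctr (hlat : LatStmt) (hqgn : QgnStmt) (hqfi : QfiStmt) (hspe : SpeStmt) (hhpr : HprStmt)
    (hadj : AdjStmt) (hhgn : HgnStmt) (hhsp : HspStmt) : CtrStmt := by
  intro F Γ A' A I J κ L M _ _ _ _ _ _ _ _ _ _ _ _ _ _ _ _ _ c d sp fb d0 n S μ hb hb' hqq hμ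
  obtain ⟨M', _, _, _, _, μ', i, hi1, hi2, hi3, hi4⟩ := hlat F A' L M μ
  have gμ : Gn μ' μ :=
    { i := i
      inj := hi1
      sm := hi2
      eqv := hi3
      den := fun t => by
        obtain ⟨n, x, hx⟩ := hi4 t
        refine ⟨(PowerSeries.X : PowerSeries F) ^ n, x, ?_, ?_⟩
        · intro h
          have h1 : (PowerSeries.X : PowerSeries F) ^ n = 0 := by
            apply IsFractionRing.injective (PowerSeries F) L
            rw [h, map_zero]
          exact pow_ne_zero n PowerSeries.X_ne_zero h1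
        · rw [map_pow]
          exact hx }
  obtain ⟨gq⟩ := hqgn F Γ A' L M' M sp.j μ' μ gμ
  have hfin : Module.Finite (PowerSeries F) (QQ sp.j μ') :=
    hqfi.2.1 (PowerSeries F) Γ A' (PowerSeries F) M' sp.j μ'
  have hfree : Module.Free (PowerSeries F) (QQ sp.j μ') := hqfi.2.2 F Γ A' M' sp.j μ'
  have hHP := hqq M' μ'
  obtain ⟨K0, _, _, _, κ0, ⟨sq⟩⟩ := hspe F A' A (QQ sp.j μ') fb (qqRp sp.j μ')
  have hHP0 : HP d0 κ0 := hhpr F A' A J (QQ sp.j μ') K0 d fb d0 (qqRp sp.j μ') κ0 sq hb hb' hHP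
  refine ⟨fun i => hd (S i) κ0, ?_⟩
  intro T' T T0 _ _ _ _ _ _ _ _ _ τ' τ τ0 gt st m hm
  have h1 := hadj (PowerSeries F) Γ A' J L T M d sp.j τ μ hμ
  have h2 := hhgn F A' L T' (QQ sp.j μ') T (QQ sp.j μ) τ' (qqRp sp.j μ') τ (qqRp sp.j μ) gt gq
  have h3 := hhsp F A' A J T' (QQ sp.j μ') T0 K0 d fb τ' (qqRp sp.j μ') τ0 κ0 st sq hHP
  have h4 := hm.hom K0 κ0 hHP0
  rw [← h1, ← h2, h3, h4]

end Pool.Agent.PFC.B2.H76
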