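import Pool.Agent.PFC.StmtsB2

/-! Row FM2 of squad PFC (block B2): the output of block B3 in the form of block B2. -/

noncomputable section

namespace Pool.Agent.PFC.B2.H76

open Pool.Agent.PFC.B1 Pool.Agent.PFC.B2

theorem fm2_comm (hske : B3.SkeStmt) (heig : B3.EigStmt) (hfib : B3.FibStmt) (hnkh : NkhStmt)
    (ℓ : ℕ) [Fact ℓ.Prime] (F V E : Type) [Field F] [CharP F ℓ] [IsAlgClosed F] [CommGroup V]
    [CommGroup E] [Finite V] [Fintype E] (φ : E →* MulAut V) (hV : IsPGroup ℓ V)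
    (hnt : Nontrivial V) (hcard : ¬ ℓ ∣ Nat.card E) :
    ∃ (Γ : Type) (_ : Ring Γ) (_ : Algebra (PowerSeries F) Γ)
      (_ : Module.Finite (PowerSeries F) Γ) (_ : Module.Free (PowerSeries F) Γ)
      (_ : Fib F Γ (MonoidAlgebra F (V ⋊[φ] E))) (_ : Ed F Γ E)
      (H : Type) (_ : Ring H) (_ : Algebra (PowerSeries F) H), Nonempty (Nk F Γ H) := by
  classical
  have hE : (Fintype.card E : F) ≠ 0 := by
    rw [← Nat.card_eq_fintype_card, Ne, CharP.cast_eq_zero_iff F ℓ]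
    exact hcard
  obtain ⟨I, _, hne, ⟨D⟩⟩ := heig ℓ F V E φ hV hnt hE
  obtain ⟨i0⟩ := hne
  have hq : ∀ i, 2 ≤ ℓ ^ D.a i := fun i =>
    (Fact.out : ℓ.Prime).two_le.trans (Nat.le_self_pow (Nat.one_le_iff_ne_zero.1 (D.a1 i)) ℓ)
  obtain ⟨Λ, _, _, ⟨P⟩⟩ := hske (PowerSeries F) I E (fun i => ℓ ^ D.a i) D.p
    (B3.cc (PowerSeries F) I PowerSeries.X i0) (B3.ηη (PowerSeries F) D.η) hq (by
      intro i e
      unfold B3.ηη
      rw [MonoidHom.comp_apply, MonoidHom.comp_apply, ← map_pow, D.hη])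
  have hfin : Module.Finite (PowerSeries F) Λ := Module.Finite.of_basis P.b
  have hfree : Module.Free (PowerSeries F) Λ := Module.Free.of_basis P.b
  obtain ⟨fb, -⟩ := hfib ℓ F V E I Λ φ D i0 P
  obtain ⟨⟨ed⟩, H, _, _, hN⟩ := hnkh ℓ F I E Λ D.a D.p i0 D.η P D.a1 D.hη hE
  exact ⟨Λ, _, _, hfin, hfree, fb, ed, H, _, _, hN⟩

theorem fm2 (hske : B3.SkeStmt) (heig : B3.EigStmt) (hfib : B3.FibStmt) (hnkh : NkhStmt) :
    Fm2Stmt := by
  intro ℓ _ F V E _ _ _ _ instE φ _ hcomm hV hnt hcard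
  have hfV : Finite V := Finite.of_injective (SemidirectProduct.inl : V →* V ⋊[φ] E)
    SemidirectProduct.inl_injective
  have hfE : Finite E := Finite.of_injective (SemidirectProduct.inr : E →* V ⋊[φ] E)
    SemidirectProduct.inr_injective
  have hFE : Fintype E := Fintype.ofFinite E
  exact @fm2_comm hske heig hfib hnkh ℓ _ F V E _ _ _ _
    { instE with mul_comm := hcomm } _ _ φ hV hnt hcard

end Pool.Agent.PFC.B2.H76
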