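import Pool.Agent.PFC.StmtsB2

/-! Row HCR of squad PFC (block B2): representations of the presented order with all relations
`x i ^ q i = t • x (p i)` are completely reducible over the fraction field. -/

noncomputable section

namespace Pool.Agent.PFC.B2.H76

open Pool.Agent.PFC.B1 Pool.Agent.PFC.B2

section

variable {F I E Λ L T : Type} [Field F] [Fintype I] [Group E] [Ring Λ]
  [Algebra (PowerSeries F) Λ] [Field L] [Algebra (PowerSeries F) L]
  [AddCommGroup T] [Module L T] {q : I → ℕ} {p : I → I} {c : I → PowerSeries F}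
  {η : I → E →* (PowerSeries F)ˣ}

theorem lsmul (τ : Rp (PowerSeries F) Λ L T) (r : PowerSeries F) (γ : Λ) (y : T) :
    τ.ρ (r • γ) y = algebraMap (PowerSeries F) L r • τ.ρ γ y := by
  rw [Algebra.smul_def, map_mul]
  exact τ.sc r _

theorem lmul (τ : Rp (PowerSeries F) Λ L T) (a b : Λ) (y : T) :
    τ.ρ (a * b) y = τ.ρ a (τ.ρ b y) := by
  rw [map_mul]
  rfl

/-- a subspace stable under the generators is stable -/
theorem stb_of_gen (P : B3.Pre (PowerSeries F) I E Λ q p c η) (τ : Rp (PowerSeries F) Λ L T)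
    (W : Submodule L T) (h1 : ∀ i, ∀ w ∈ W, τ.ρ (P.j (MvPolynomial.X i)) w ∈ W)
    (h2 : ∀ e, ∀ w ∈ W, τ.ρ (P.ε e) w ∈ W) : Stb τ W := by
  have h3 : ∀ f : MvPolynomial I (PowerSeries F), ∀ w ∈ W, τ.ρ (P.j f) w ∈ W := by
    intro f
    induction f using MvPolynomial.induction_on with
    | C r =>
      intro w hw
      have h4 : P.j (MvPolynomial.C r) = algebraMap (PowerSeries F) Λ r := P.j.commutes r
      rw [h4, τ.sc]
      exact W.smul_mem _ hw
    | add f g hf hg =>
      intro w hw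
      rw [map_add, map_add, LinearMap.add_apply]
      exact W.add_mem (hf w hw) (hg w hw)
    | mul_X f i hf =>
      intro w hw
      rw [map_mul, lmul]
      exact hf _ (h1 i w hw)
  intro z w hw
  have hz : z ∈ Submodule.span (PowerSeries F) (Set.range P.b) := by
    rw [P.b.span_eq]
    trivial
  induction hz using Submodule.span_induction with
  | mem x hx =>
    obtain ⟨⟨α, e⟩, rfl⟩ := hx
    rw [P.hb, lmul]
    exact h3 _ _ (h2 e w hw)
  | zero =>
    rw [map_zero]
    exact W.zero_mem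
  | add x y _ _ hx hy =>
    rw [map_add, LinearMap.add_apply]
    exact W.add_mem hx hy
  | smul r x _ hx =>
    rw [lsmul]
    exact W.smul_mem _ hx

end

theorem hcr (hsst : B3.SstStmt) (havg : B3.AvgStmt) : HcrStmt := by
  intro ℓ _ F I E Λ _ _ _ _ _ _ _ a p η P ha hE L T _ _ _ _ _ _ τ U hU
  -- the field `L`
  obtain ⟨ι, hι⟩ : ∃ ι : F →+* L, ι = (algebraMap (PowerSeries F) L).comp PowerSeries.C := ⟨_, rfl⟩
  have hιinj : Function.Injective ι := ι.injective
  have hchar : CharP L ℓ := (RingHom.charP_iff ι hιinj ℓ).1 inferInstance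
  have hEL : (Fintype.card E : L) ≠ 0 := by
    intro h
    apply hE
    apply hιinj
    rw [map_natCast, h, map_zero]
  have ht : algebraMap (PowerSeries F) L PowerSeries.X ≠ 0 := by
    intro h
    apply PowerSeries.X_ne_zero (R := F)
    apply IsFractionRing.injective (PowerSeries F) L
    rw [h, map_zero]
  -- the operators
  obtain ⟨y, hy⟩ : ∃ y : I → Module.End L T, ∀ i, y i = τ.ρ (P.j (MvPolynomial.X i)) :=
    ⟨fun i => τ.ρ (P.j (MvPolynomial.X i)), fun _ => rfl⟩
  have hyc : ∀ i i', y i * y i' = y i' * y i := by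
    intro i i'
    rw [hy, hy, ← map_mul, ← map_mul, mul_comm, map_mul, map_mul]
  have hpow : ∀ i, ∃ z ∈ Algebra.adjoin L (Set.range y), ∃ s : L, y i = s • z ^ ℓ := by
    intro i
    obtain ⟨i', hi'⟩ : ∃ i', p i' = i := p.surjective i
    refine ⟨y i' ^ (ℓ ^ (a i' - 1)), Subalgebra.pow_mem _ (Algebra.subset_adjoin (Set.mem_range_self i')) _,
      (algebraMap (PowerSeries F) L PowerSeries.X)⁻¹, ?_⟩
    have h1 : ℓ ^ (a i' - 1) * ℓ = ℓ ^ a i' := by
      rw [← pow_succ, Nat.sub_add_cancel (ha i')]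
    have h2 := congrArg τ.ρ (P.rel i')
    rw [map_pow, hi'] at h2
    have h3 : τ.ρ ((PowerSeries.X : PowerSeries F) • P.j (MvPolynomial.X i)) =
        algebraMap (PowerSeries F) L PowerSeries.X • y i := by
      apply LinearMap.ext
      intro t
      rw [lsmul, LinearMap.smul_apply, hy]
    rw [← pow_mul, h1, hy i', h2, h3, smul_smul, inv_mul_cancel₀ ht, one_smul]
  obtain ⟨U', hU', hU'y⟩ := hsst ℓ L I T y hyc hpow U (by
    intro i u hu
    rw [hy]
    exact hU _ u hu)
  -- averaging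
  obtain ⟨η', hη'⟩ : ∃ η' : I → E →* Lˣ, ∀ i e, (η' i e : L) =
      algebraMap (PowerSeries F) L (η i e : PowerSeries F) :=
    ⟨fun i => (Units.map (algebraMap (PowerSeries F) L : PowerSeries F →* L)).comp (η i),
      fun i e => rfl⟩
  obtain ⟨ρ, hρ⟩ : ∃ ρ : E →* Module.End L T, ∀ e, ρ e = τ.ρ (P.ε e) :=
    ⟨(τ.ρ : Λ →* Module.End L T).comp P.ε, fun _ => rfl⟩
  obtain ⟨W, hW, hWy, hWρ⟩ := havg L I E T y ρ η' hEL (by
    intro i e
    rw [hρ, hy, ← map_mul, P.cm, hη']
    apply LinearMap.ext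
    intro t
    rw [lsmul, LinearMap.smul_apply, map_mul]) U U' hU' (by
      intro i u hu
      rw [hy]
      exact hU _ u hu) hU'y (by
      intro e u hu
      rw [hρ]
      exact hU _ u hu)
  refine ⟨W, stb_of_gen P τ W ?_ ?_, hW⟩
  · intro i w hw
    rw [← hy]
    exact hWy i w hw
  · intro e w hw
    rw [← hρ]
    exact hWρ e w hw

end Pool.Agent.PFC.B2.H76
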