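import Pool.Agent.PFC.StmtsB2

/-! Row THE of squad PFC (block B2): an endomorphism which isolates `σ`. -/

noncomputable section

namespace Pool.Agent.PFC.B2.H76

open Pool.Agent.PFC.B1 Pool.Agent.PFC.B2

section

variable {F Γ H L T S : Type} [Field F] [Ring Γ] [Algebra (PowerSeries F) Γ] [Ring H]
  [Algebra (PowerSeries F) H] [Field L] [Algebra (PowerSeries F) L]
  [AddCommGroup T] [Module L T] [AddCommGroup S] [Module L S]

theorem xj (nk : Nk F Γ H) (i : ℕ) (h : H) : nk.x ^ i * nk.j h = nk.j ((nk.s)^[i] h) * nk.x ^ i := by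
  induction i with
  | zero => rw [pow_zero, one_mul, mul_one]; rfl
  | succ i ih =>
    rw [pow_succ', mul_assoc, ih, ← mul_assoc, nk.cm, Function.iterate_succ_apply', mul_assoc]

theorem rp_smul (τ : Rp (PowerSeries F) Γ L T) (r : PowerSeries F) (γ : Γ) (y : T) :
    τ.ρ (r • γ) y = algebraMap (PowerSeries F) L r • τ.ρ γ y := by
  rw [Algebra.smul_def, map_mul]
  exact τ.sc r _

theorem rp_mul (τ : Rp (PowerSeries F) Γ L T) (a b : Γ) (y : T) :
    τ.ρ (a * b) y = τ.ρ a (τ.ρ b y) := by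
  rw [map_mul]
  rfl

theorem rp_one (τ : Rp (PowerSeries F) Γ L T) (y : T) : τ.ρ 1 y = y := by
  rw [map_one]
  rfl

theorem algebraMap_X_pow_ne [IsFractionRing (PowerSeries F) L] (n : ℕ) :
    algebraMap (PowerSeries F) L ((PowerSeries.X : PowerSeries F) ^ n) ≠ 0 := by
  intro h
  have h1 : (PowerSeries.X : PowerSeries F) ^ n = 0 := by
    apply IsFractionRing.injective (PowerSeries F) L
    rw [h, map_zero]
  exact pow_ne_zero n PowerSeries.X_ne_zero h1

/-- a map which commutes with `H` and `x` commutes with `Γ` -/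
theorem gen_hom [IsFractionRing (PowerSeries F) L] (nk : Nk F Γ H)
    (α : Rp (PowerSeries F) Γ L T) (β : Rp (PowerSeries F) Γ L S) (φ : T →ₗ[L] S)
    (h1 : ∀ h y, φ (α.ρ (nk.j h) y) = β.ρ (nk.j h) (φ y))
    (h2 : ∀ y, φ (α.ρ nk.x y) = β.ρ nk.x (φ y)) : IsHom α β φ := by
  intro γ y
  obtain ⟨n, h, hn⟩ := nk.gen γ
  have h3 : ∀ (i : ℕ) y, φ (α.ρ (nk.x ^ i) y) = β.ρ (nk.x ^ i) (φ y) := by
    intro i
    induction i with
    | zero => intro y; rw [pow_zero, rp_one, rp_one]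
    | succ i ih => intro y; rw [pow_succ', rp_mul, rp_mul, h2, ih]
  have h4 : φ (α.ρ ((PowerSeries.X : PowerSeries F) ^ n • γ) y) =
      β.ρ ((PowerSeries.X : PowerSeries F) ^ n • γ) (φ y) := by
    rw [hn, map_sum, map_sum, LinearMap.sum_apply, LinearMap.sum_apply, map_sum]
    refine Finset.sum_congr rfl fun i _ => ?_
    rw [rp_mul, rp_mul, h1, h3]
  rw [rp_smul, rp_smul, map_smul] at h4
  exact smul_right_injective S (algebraMap_X_pow_ne (F := F) (L := L) n) h4

end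

theorem the (htha : ThaStmt) (hxir : XirStmt) (hsch : SchStmt) : TheStmt := by
  intro F Γ H L T S _ _ _ _ _ _ _ _ _ _ _ _ _ nk τ σ f hσ hf hnul
  obtain ⟨m, W, ψ, hm, hWj, hWx, hfs, hfi, hψW, hψ0, hψ1, hψj⟩ :=
    htha F Γ H L T S nk τ σ f hσ hf hnul
  obtain ⟨θ, hθ⟩ : ∃ θ : T →ₗ[L] T, ∀ t, θ t = ∑ k ∈ Finset.range (m + 1),
      τ.ρ (nk.x ^ k) (ψ (τ.ρ (nk.x ^ (m - k)) t)) :=
    ⟨∑ k ∈ Finset.range (m + 1), (τ.ρ (nk.x ^ k)) ∘ₗ ψ ∘ₗ (τ.ρ (nk.x ^ (m - k))), fun t => by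
      rw [LinearMap.sum_apply]
      rfl⟩
  -- the inverse iterates
  have hsk : ∀ (k : ℕ) (h : H), (nk.s)^[k] ((nk.s.symm)^[k] h) = h := by
    intro k
    induction k with
    | zero => intro h; rfl
    | succ k ih =>
      intro h
      rw [Function.iterate_succ_apply, Function.iterate_succ_apply', AlgEquiv.apply_symm_apply, ih]
  have hθhom : IsHom τ τ θ := by
    refine gen_hom nk τ τ θ ?_ ?_
    · intro h y
      rw [hθ, hθ, map_sum]
      refine Finset.sum_congr rfl fun k hk => ?_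
      have hkm : k ≤ m := Nat.lt_succ_iff.1 (Finset.mem_range.1 hk)
      have h1 : (nk.s)^[m - k] h = (nk.s)^[m] ((nk.s.symm)^[k] h) := by
        have h2 : m = (m - k) + k := by omega
        conv_rhs => rw [h2]
        rw [Function.iterate_add_apply, hsk]
      rw [← rp_mul, xj, rp_mul, h1, hψj, ← rp_mul, xj, hsk, rp_mul]
    · intro y
      have h1 : θ (τ.ρ nk.x y) = ∑ k ∈ Finset.range m,
          τ.ρ (nk.x ^ (k + 1)) (ψ (τ.ρ (nk.x ^ (m - k)) y)) := by
        rw [hθ, Finset.sum_range_succ']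
        rw [← rp_mul, Nat.sub_zero, ← pow_succ, hψ0, map_zero, add_zero]
        refine Finset.sum_congr rfl fun k hk => ?_
        rw [← rp_mul, ← pow_succ]
        have hk' := Finset.mem_range.1 hk
        have h2 : m - (k + 1) + 1 = m - k := by omega
        rw [h2]
      rw [h1, hθ, Finset.sum_range_succ, map_add, map_sum, ← rp_mul, ← pow_succ', hWx _ (hψW _),
        add_zero]
      refine Finset.sum_congr rfl fun k _ => ?_
      rw [← rp_mul, ← pow_succ']
  -- composition with intertwiners to irreducible representations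
  have hcomp : ∀ (S' : Type) [AddCommGroup S'] [Module L S'] (σ' : Rp (PowerSeries F) Γ L S')
      (f' : T →ₗ[L] S'), Irr σ' → IsHom τ σ' f' → ∀ t, f' (θ t) = f' (ψ (τ.ρ (nk.x ^ m) t)) := by
    intro S' _ _ σ' f' hσ' hf' t
    rw [hθ, Finset.sum_range_succ', map_add, map_sum, Finset.sum_eq_zero, zero_add, pow_zero,
      rp_one, Nat.sub_zero]
    intro k _
    rw [pow_succ', rp_mul, hf', hxir F Γ H L S' nk σ' hσ']
  refine ⟨θ, hθhom, ?_, ?_⟩
  · intro hnul'
    have hnt := hσ.1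
    obtain ⟨y, hy⟩ := exists_ne (0 : S)
    obtain ⟨w, hwW, hw⟩ := hfs y
    apply hy
    have h1 : τ.ρ (nk.x ^ (nk.Q - 1)) w = 0 := by
      have h2 : nk.Q - 1 = (nk.Q - 1 - (m + 1)) + (m + 1) := by omega
      rw [h2, pow_add, rp_mul, hWx w hwW, map_zero]
    have h2 := hnul' w h1
    rw [LinearMap.comp_apply, hcomp S σ f hσ hf, hψ1 w hwW, hw] at h2
    exact h2
  · intro S' _ _ σ' f' hσ' hiso hf'
    -- `f'` vanishes on `W`
    obtain ⟨e, he⟩ : ∃ e : W ≃ₗ[L] S, ∀ w : W, e w = f w := by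
      refine ⟨LinearEquiv.ofBijective (f.domRestrict W) ⟨?_, ?_⟩, fun w => rfl⟩
      · rw [← LinearMap.ker_eq_bot, LinearMap.ker_eq_bot']
        intro w hw
        exact Subtype.ext (hfi w w.2 hw)
      · intro y
        obtain ⟨w, hw, hwy⟩ := hfs y
        exact ⟨⟨w, hw⟩, hwy⟩
    have hfe : ∀ y, f (e.symm y : T) = y := fun y => by
      rw [← he, LinearEquiv.apply_symm_apply]
    obtain ⟨g, hg⟩ : ∃ g : S →ₗ[L] S', ∀ y, g y = f' (e.symm y : T) :=
      ⟨(f'.domRestrict W) ∘ₗ e.symm.toLinearMap, fun y => rfl⟩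
    have hghom : IsHom σ σ' g := by
      refine gen_hom nk σ σ' g ?_ ?_
      · intro h y
        have h1 : e.symm (σ.ρ (nk.j h) y) = ⟨τ.ρ (nk.j h) (e.symm y : T), hWj h _ (e.symm y).2⟩ := by
          rw [LinearEquiv.symm_apply_eq, he, hf, hfe]
        rw [hg, hg, h1]
        exact hf' _ _
      · intro y
        rw [hxir F Γ H L S nk σ hσ, hxir F Γ H L S' nk σ' hσ', map_zero]
    have hg0 : g = 0 := by
      by_contra h0
      have hbij := hsch (PowerSeries F) Γ L S S' σ σ' g hσ hσ' hghom h0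
      exact hiso ⟨LinearEquiv.ofBijective g hbij, hghom⟩
    apply LinearMap.ext
    intro t
    rw [LinearMap.comp_apply, hcomp S' σ' f' hσ' hf', LinearMap.zero_apply]
    have h1 := LinearMap.congr_fun hg0 (f (ψ (τ.ρ (nk.x ^ m) t)))
    rw [hg, LinearMap.zero_apply] at h1
    have h2 : e.symm (f (ψ (τ.ρ (nk.x ^ m) t))) = ⟨_, hψW (τ.ρ (nk.x ^ m) t)⟩ := by
      rw [LinearEquiv.symm_apply_eq, he]
    rw [h2] at h1
    exact h1

end Pool.Agent.PFC.B2.H76
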